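import Pool.Agent.helper5.LDH.Spec
set_option autoImplicit false
open Complex MeasureTheory
namespace Pool.Agent.LDH
open Pool.Agent.helper84.DM Pool.Agent.helper78.ED Pool.Agent.DH

/-- the twisted sum -/
noncomputable def SOB_G (N : ℕ) (w : ℕ → ℝ) (u : ℝ) : ℂ :=
  ∑ n ∈ Finset.Ioc N (2 * N), ((w n : ℝ) : ℂ) * Complex.exp ((u : ℂ) * (((-Real.log ((n : ℝ) / N) : ℝ) : ℂ) * I))

theorem SOB_norm (N : ℕ) (w : ℕ → ℝ) (u : ℝ) (hN : 1 ≤ N) :
    ‖DP N (fun n => ((w n : ℝ) : ℂ)) u‖ = ‖SOB_G N w u‖ := by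
  have hN0 : (0 : ℝ) < N := by exact_mod_cast hN
  have h : DP N (fun n => ((w n : ℝ) : ℂ)) u =
      Complex.exp (((-(u * Real.log N) : ℝ) : ℂ) * I) * SOB_G N w u := by
    unfold DP SOB_G
    rw [Finset.mul_sum]
    refine Finset.sum_congr rfl fun n hn => ?_
    have hn1 : N < n := (Finset.mem_Ioc.1 hn).1
    have hn0 : (0 : ℝ) < n := by
      have : 0 < n := by omega
      exact_mod_cast this
    have hnc : (n : ℂ) ≠ 0 := by exact_mod_cast hn0.ne'
    rw [Complex.cpow_def_of_ne_zero hnc, ← Complex.natCast_log]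
    have h1 : Real.log ((n : ℝ) / N) = Real.log n - Real.log N := Real.log_div hn0.ne' hN0.ne'
    rw [h1, mul_left_comm, ← Complex.exp_add]
    congr 2
    push_cast
    ring
  rw [h, norm_mul, Complex.norm_exp_ofReal_mul_I, one_mul]

theorem SOB_der (N : ℕ) (w : ℕ → ℝ) (u : ℝ) :
    HasDerivAt (SOB_G N w) (-I * SOB_G N (fun n => w n * Real.log ((n : ℝ) / N)) u) u := by
  have h1 : ∀ n ∈ Finset.Ioc N (2 * N), HasDerivAt (fun u : ℝ => ((w n : ℝ) : ℂ) *
      Complex.exp ((u : ℂ) * (((-Real.log ((n : ℝ) / N) : ℝ) : ℂ) * I)))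
      (((w n : ℝ) : ℂ) * (Complex.exp ((u : ℂ) * (((-Real.log ((n : ℝ) / N) : ℝ) : ℂ) * I)) *
        (1 * (((-Real.log ((n : ℝ) / N) : ℝ) : ℂ) * I)))) u := by
    intro n _
    have h2 : HasDerivAt (fun u : ℝ => (u : ℂ)) 1 u := (hasDerivAt_id u).ofReal_comp
    exact ((h2.mul_const _).cexp).const_mul _
  have h3 := HasDerivAt.fun_sum h1
  have h4 : -I * SOB_G N (fun n => w n * Real.log ((n : ℝ) / N)) u =
      ∑ n ∈ Finset.Ioc N (2 * N), (((w n : ℝ) : ℂ) *
        (Complex.exp ((u : ℂ) * (((-Real.log ((n : ℝ) / N) : ℝ) : ℂ) * I)) *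
        (1 * (((-Real.log ((n : ℝ) / N) : ℝ) : ℂ) * I)))) := by
    unfold SOB_G
    rw [Finset.mul_sum]
    refine Finset.sum_congr rfl fun n _ => ?_
    push_cast
    ring
  rw [h4]
  exact h3

theorem SOB_derF (N : ℕ) (w : ℕ → ℝ) (u : ℝ) : ∃ D : ℝ,
    HasDerivAt (fun v => ‖SOB_G N w v‖ ^ 2) D u ∧
      |D| ≤ ‖SOB_G N w u‖ ^ 2 + ‖SOB_G N (fun n => w n * Real.log ((n : ℝ) / N)) u‖ ^ 2 := by
  have h1 := (SOB_der N w u).norm_sq
  refine ⟨_, h1, ?_⟩
  have h2 := abs_real_inner_le_norm (SOB_G N w u) (-I * SOB_G N (fun n => w n * Real.log ((n : ℝ) / N)) u)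
  rw [norm_mul, norm_neg, Complex.norm_I, one_mul] at h2
  rw [abs_mul, abs_two]
  nlinarith [sq_nonneg (‖SOB_G N w u‖ - ‖SOB_G N (fun n => w n * Real.log ((n : ℝ) / N)) u‖)]

theorem SOB_cont (N : ℕ) (w : ℕ → ℝ) : Continuous (SOB_G N w) :=
  continuous_iff_continuousAt.2 fun u => (SOB_der N w u).continuousAt

/-- Gallagher's lemma -/
theorem SOB_gal (P Q : ℝ → ℝ) (hP : Continuous P) (hQ : Continuous Q) (hP0 : ∀ u, 0 ≤ P u)
    (hD : ∀ u, ∃ D : ℝ, HasDerivAt P D u ∧ |D| ≤ P u + Q u) (s : ℝ) :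
    P s ≤ ∫ u in (s - 1 / 2)..s, (3 * P u + Q u) := by
  classical
  choose D hD1 hD2 using hD
  have hDm : Measurable D := by
    have h1 : D = deriv P := by
      funext u
      exact (hD1 u).deriv.symm
    rw [h1]
    exact measurable_deriv P
  have hle : s - 1 / 2 ≤ s := by linarith
  have hDi : IntervalIntegrable D volume (s - 1 / 2) s := by
    rw [intervalIntegrable_iff_integrableOn_Ioc_of_le hle]
    have h2 : IntegrableOn (fun u => P u + Q u) (Set.Ioc (s - 1 / 2) s) volume := by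
      have h3 : IntervalIntegrable (fun u => P u + Q u) volume (s - 1 / 2) s :=
        (hP.add hQ).intervalIntegrable _ _
      rwa [intervalIntegrable_iff_integrableOn_Ioc_of_le hle] at h3
    refine Integrable.mono' h2 hDm.aestronglyMeasurable (Filter.Eventually.of_forall fun u => ?_)
    rw [Real.norm_eq_abs]
    exact hD2 u
  have hint : IntervalIntegrable (fun u => 2 * P u + 2 * (u - (s - 1 / 2)) * D u) volume (s - 1 / 2) s := by
    refine ((continuous_const.mul hP).intervalIntegrable _ _).add ?_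
    exact hDi.continuousOn_mul (by fun_prop)
  have hF := intervalIntegral.integral_eq_sub_of_hasDerivAt
    (f := fun u => 2 * (u - (s - 1 / 2)) * P u) (f' := fun u => 2 * P u + 2 * (u - (s - 1 / 2)) * D u)
    (a := s - 1 / 2) (b := s) (fun u _ => by
      have h4 : HasDerivAt (fun u : ℝ => 2 * (u - (s - 1 / 2))) (2 * 1) u :=
        ((hasDerivAt_id u).sub_const _).const_mul 2
      have h5 := h4.mul (hD1 u)
      rw [mul_one] at h5
      exact h5) hint
  have h6 : P s = ∫ u in (s - 1 / 2)..s, (2 * P u + 2 * (u - (s - 1 / 2)) * D u) := by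
    rw [hF]
    ring
  rw [h6]
  refine intervalIntegral.integral_mono_on hle hint
    (((continuous_const.mul hP).add hQ).intervalIntegrable _ _) fun u hu => ?_
  have h7 : 2 * (u - (s - 1 / 2)) * D u ≤ |D u| := by
    have h8 : 0 ≤ 2 * (u - (s - 1 / 2)) := by linarith [hu.1]
    have h9 : 2 * (u - (s - 1 / 2)) ≤ 1 := by linarith [hu.2]
    calc 2 * (u - (s - 1 / 2)) * D u ≤ 2 * (u - (s - 1 / 2)) * |D u| :=
          mul_le_mul_of_nonneg_left (le_abs_self _) h8
      _ ≤ 1 * |D u| := mul_le_mul_of_nonneg_right h9 (abs_nonneg _)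
      _ = |D u| := one_mul _
  have h10 := hD2 u
  linarith

theorem SOB_exp : (1 : ℝ) / 10 ≤ Real.exp (-(9 / 4)) := by
  rw [Real.exp_neg, ← one_div]
  refine one_div_le_one_div_of_le (Real.exp_pos _) ?_
  have h1 : Real.exp (9 / 4) = Real.exp 1 ^ 2 * Real.exp (1 / 4) := by
    rw [← Real.exp_nat_mul, ← Real.exp_add]
    norm_num
  have h2 := Real.exp_one_lt_d9
  have h3 : Real.exp (1 / 4) ^ 4 = Real.exp 1 := by
    rw [← Real.exp_nat_mul]
    norm_num
  have h4 : Real.exp (1 / 4) ≤ 1.3 := by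
    by_contra h5
    push Not at h5
    have h6 : (1.3 : ℝ) ^ 4 < Real.exp (1 / 4) ^ 4 := pow_lt_pow_left₀ h5 (by norm_num) (by norm_num)
    rw [h3] at h6
    norm_num at h6
    linarith
  rw [h1]
  have h7 : Real.exp 1 ^ 2 ≤ 7.4 := by
    have h8 : (0 : ℝ) ≤ Real.exp 1 := (Real.exp_pos 1).le
    nlinarith
  have h9 : (0 : ℝ) < Real.exp (1 / 4) := Real.exp_pos _
  nlinarith

theorem SOB (hINT : INT_stmt) : SOB_stmt := by
  intro N w H t W hN hH hW hsep
  have hH0 : (0 : ℝ) < H := by linarith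
  obtain ⟨hi1, -⟩ := hINT N w H t hH0
  obtain ⟨hi2, -⟩ := hINT N (fun n => w n * Real.log ((n : ℝ) / N)) H t hH0
  unfold JJ
  simp only [SOB_norm N _ _ hN] at hi1 hi2 ⊢
  obtain ⟨P, hPdef⟩ : ∃ P : ℝ → ℝ, P = fun u => ‖SOB_G N w u‖ ^ 2 := ⟨_, rfl⟩
  obtain ⟨Q, hQdef⟩ : ∃ Q : ℝ → ℝ, Q = fun u => ‖SOB_G N (fun n => w n * Real.log ((n : ℝ) / N)) u‖ ^ 2 := ⟨_, rfl⟩
  have hP : Continuous P := by rw [hPdef]; exact (SOB_cont N w).norm.pow 2
  have hQ : Continuous Q := by rw [hQdef]; exact (SOB_cont N _).norm.pow 2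
  have hP0 : ∀ u, 0 ≤ P u := fun u => by rw [hPdef]; positivity
  have hQ0 : ∀ u, 0 ≤ Q u := fun u => by rw [hQdef]; positivity
  have hD : ∀ u, ∃ D : ℝ, HasDerivAt P D u ∧ |D| ≤ P u + Q u := fun u => by
    rw [hPdef, hQdef]; exact SOB_derF N w u
  have hi1' : Integrable (fun u : ℝ => Real.exp (-((u - t) / H) ^ 2) * P u) := by rw [hPdef]; exact hi1
  have hi2' : Integrable (fun u : ℝ => Real.exp (-((u - t) / H) ^ 2) * Q u) := by rw [hQdef]; exact hi2
  have hgoal : ∑ s ∈ W, P s ≤ 30 * ((∫ u : ℝ, Real.exp (-((u - t) / H) ^ 2) * P u) +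
      ∫ u : ℝ, Real.exp (-((u - t) / H) ^ 2) * Q u) := by
    have hf : Integrable (fun u : ℝ => 30 * (Real.exp (-((u - t) / H) ^ 2) * P u) +
        10 * (Real.exp (-((u - t) / H) ^ 2) * Q u)) := (hi1'.const_mul 30).add (hi2'.const_mul 10)
    have hf0 : ∀ u, 0 ≤ 30 * (Real.exp (-((u - t) / H) ^ 2) * P u) +
        10 * (Real.exp (-((u - t) / H) ^ 2) * Q u) := fun u => by
      have := hP0 u
      have := hQ0 u
      positivity
    have h1 : ∀ s ∈ W, P s ≤ ∫ u in Set.Ioc (s - 1 / 2) s, (30 * (Real.exp (-((u - t) / H) ^ 2) * P u) +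
        10 * (Real.exp (-((u - t) / H) ^ 2) * Q u)) := by
      intro s hs
      have h2 := SOB_gal P Q hP hQ hP0 hD s
      rw [intervalIntegral.integral_of_le (by linarith)] at h2
      refine h2.trans ?_
      have h3 : IntervalIntegrable (fun u => 3 * P u + Q u) volume (s - 1 / 2) s :=
        ((continuous_const.mul hP).add hQ).intervalIntegrable _ _
      rw [intervalIntegrable_iff_integrableOn_Ioc_of_le (by linarith)] at h3
      refine setIntegral_mono_on h3 hf.integrableOn measurableSet_Ioc fun u hu => ?_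
      have h4 : |s - t| ≤ H := hW s hs
      have h5 : |u - t| ≤ 3 / 2 * H := by
        rw [abs_le] at h4 ⊢
        constructor
        · linarith [hu.1, h4.1]
        · linarith [hu.2, h4.2]
      have h6 : (1 : ℝ) / 10 ≤ Real.exp (-((u - t) / H) ^ 2) := by
        refine SOB_exp.trans (Real.exp_le_exp.2 ?_)
        have h7 : |(u - t) / H| ≤ 3 / 2 := by
          rw [abs_div, abs_of_pos hH0, div_le_iff₀ hH0]
          exact h5
        have h8 : ((u - t) / H) ^ 2 ≤ (3 / 2) ^ 2 := by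
          rw [← sq_abs]
          exact pow_le_pow_left₀ (abs_nonneg _) h7 2
        norm_num at h8
        linarith
      have h9 := mul_le_mul_of_nonneg_right h6 (hP0 u)
      have h10 := mul_le_mul_of_nonneg_right h6 (hQ0 u)
      linarith
    calc ∑ s ∈ W, P s ≤ ∑ s ∈ W, ∫ u in Set.Ioc (s - 1 / 2) s,
          (30 * (Real.exp (-((u - t) / H) ^ 2) * P u) + 10 * (Real.exp (-((u - t) / H) ^ 2) * Q u)) :=
          Finset.sum_le_sum h1
      _ = ∫ u in ⋃ s ∈ W, Set.Ioc (s - 1 / 2) s,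
          (30 * (Real.exp (-((u - t) / H) ^ 2) * P u) + 10 * (Real.exp (-((u - t) / H) ^ 2) * Q u)) := by
          rw [integral_biUnion_finset W (fun s _ => measurableSet_Ioc) ?_ (fun s _ => hf.integrableOn)]
          intro s hs s' hs' hne
          have h11 := hsep s hs s' hs' hne
          rw [Function.onFun, Set.disjoint_left]
          rintro u ⟨hu1, hu2⟩ ⟨hu3, hu4⟩
          rcases le_abs.1 h11 with h | h <;> linarith
      _ ≤ ∫ u : ℝ, (30 * (Real.exp (-((u - t) / H) ^ 2) * P u) + 10 * (Real.exp (-((u - t) / H) ^ 2) * Q u)) :=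
          setIntegral_le_integral hf (Filter.Eventually.of_forall hf0)
      _ = 30 * (∫ u : ℝ, Real.exp (-((u - t) / H) ^ 2) * P u) +
          10 * ∫ u : ℝ, Real.exp (-((u - t) / H) ^ 2) * Q u := by
          rw [integral_add (hi1'.const_mul 30) (hi2'.const_mul 10), integral_const_mul, integral_const_mul]
      _ ≤ 30 * ((∫ u : ℝ, Real.exp (-((u - t) / H) ^ 2) * P u) +
          ∫ u : ℝ, Real.exp (-((u - t) / H) ^ 2) * Q u) := by
          have h12 : 0 ≤ ∫ u : ℝ, Real.exp (-((u - t) / H) ^ 2) * Q u :=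
            integral_nonneg fun u => mul_nonneg (Real.exp_pos _).le (hQ0 u)
          linarith
  rw [hPdef, hQdef] at hgoal
  exact hgoal

end Pool.Agent.LDH
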